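import Pool.Agent.Q127.KI.Stm

/-!
# Project KI, job UNI: the subshift has only one invariant probability measure
-/

set_option autoImplicit false

namespace Pool.Agent.Q54.KI

open MeasureTheory Filter Topology
open Pool.Agent.Q127.KI

theorem sh_iter (a : ℕ) (w : ℤ → Bool) (i : ℤ) : (sh^[a] w) i = w (i + a) := by
  induction a generalizing w with
  | zero => simp
  | succ a ih =>
    rw [Function.iterate_succ_apply, ih]
    change w (i + a + 1) = w (i + ((a + 1 : ℕ) : ℤ))
    congr 1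
    push_cast
    ring

/-- The estimate for one measure. -/
theorem one_side (B : Set (ℤ → Bool)) (hB : MeasurableSet B) (μ : Measure (ℤ → Bool))
    [IsProbabilityMeasure μ] (hμ : MeasurePreserving sh μ μ) (hs : ∀ᵐ w ∂μ, w ∈ Pool.Agent.Q127.KI.Sub) (n : ℕ)
    (c K : ℝ)
    (h : ∀ w ∈ Pool.Agent.Q127.KI.Sub, |∑ i ∈ Finset.range n, B.indicator (fun _ => (1 : ℝ)) (sh^[i] w) - c| ≤ K) :
    |n * μ.real B - c| ≤ K := by
  have hm : ∀ i : ℕ, MeasurePreserving (sh^[i]) μ μ := fun i => hμ.iterate i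
  have hgm : Measurable (B.indicator (fun _ => (1 : ℝ))) := measurable_const.indicator hB
  have hgi : ∀ i : ℕ, Integrable (fun w => B.indicator (fun _ => (1 : ℝ)) (sh^[i] w)) μ := by
    intro i
    have h1 : Integrable (B.indicator (fun _ => (1 : ℝ))) μ := (integrable_const (1 : ℝ)).indicator hB
    exact (hm i).integrable_comp_of_integrable h1
  have hint : ∀ i : ℕ, ∫ w, B.indicator (fun _ => (1 : ℝ)) (sh^[i] w) ∂μ = μ.real B := by
    intro i
    have h1 : ∫ w, B.indicator (fun _ => (1 : ℝ)) (sh^[i] w) ∂μ =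
        ∫ w, B.indicator (fun _ => (1 : ℝ)) w ∂(μ.map (sh^[i])) := by
      rw [integral_map (hm i).measurable.aemeasurable hgm.aestronglyMeasurable]
    rw [h1, (hm i).map_eq, integral_indicator hB, setIntegral_const, smul_eq_mul, mul_one]
  have hsum : ∫ w, (∑ i ∈ Finset.range n, B.indicator (fun _ => (1 : ℝ)) (sh^[i] w) - c) ∂μ =
      n * μ.real B - c := by
    rw [integral_sub (integrable_finsetSum _ fun i _ => hgi i) (integrable_const c),
      integral_finsetSum _ fun i _ => hgi i, integral_const, probReal_univ, one_smul]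
    rw [Finset.sum_congr rfl fun i _ => hint i, Finset.sum_const, Finset.card_range, nsmul_eq_mul]
  rw [← hsum]
  have hb : ∀ᵐ w ∂μ, ‖∑ i ∈ Finset.range n, B.indicator (fun _ => (1 : ℝ)) (sh^[i] w) - c‖ ≤ K := by
    filter_upwards [hs] with w hw
    rw [Real.norm_eq_abs]
    exact h w hw
  have h2 := norm_integral_le_of_norm_le_const hb
  rw [probReal_univ, mul_one, Real.norm_eq_abs] at h2
  exact h2

theorem uni (h1 : S_frq) (h2 : S_grw) : S_uni := by
  intro μ ν _ _ hμ hν hμs hνs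
  refine ext_of_generate_finite (measurableCylinders (fun _ : ℤ => Bool))
    generateFrom_measurableCylinders.symm isPiSystem_measurableCylinders ?_ (by simp)
  intro A hA
  rw [mem_measurableCylinders] at hA
  obtain ⟨s, S, hS, rfl⟩ := hA
  have hAm : MeasurableSet (cylinder (α := fun _ : ℤ => Bool) s S) := hS.cylinder s
  -- a bound for the coordinates
  obtain ⟨a, ha⟩ : ∃ a : ℕ, ∀ i ∈ s, -(a : ℤ) ≤ i ∧ i ≤ a := by
    refine ⟨∑ i ∈ s, i.natAbs, fun i hi => ?_⟩
    have h3 : i.natAbs ≤ ∑ i ∈ s, i.natAbs :=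
      Finset.single_le_sum (f := fun i : ℤ => i.natAbs) (fun _ _ => Nat.zero_le _) hi
    omega
  obtain ⟨B, hBdef⟩ : ∃ B : Set (ℤ → Bool), B = sh^[a] ⁻¹' (cylinder (α := fun _ : ℤ => Bool) s S) :=
    ⟨_, rfl⟩
  have hBm : MeasurableSet B := by
    rw [hBdef]
    exact (hμ.iterate a).measurable hAm
  have e1 : μ (cylinder (α := fun _ : ℤ => Bool) s S) = μ B := by
    rw [hBdef]
    exact ((hμ.iterate a).measure_preimage hAm.nullMeasurableSet).symm
  have e2 : ν (cylinder (α := fun _ : ℤ => Bool) s S) = ν B := by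
    rw [hBdef]
    exact ((hν.iterate a).measure_preimage hAm.nullMeasurableSet).symm
  rw [e1, e2]
  -- the indicator depends on the coordinates 0, ..., 2a
  have hdep : ∀ w w' : ℤ → Bool, (∀ i : ℕ, i < 2 * a + 1 → w i = w' i) →
      B.indicator (fun _ => (1 : ℝ)) w = B.indicator (fun _ => (1 : ℝ)) w' := by
    intro w w' hw
    have h3 : w ∈ B ↔ w' ∈ B := by
      rw [hBdef, Set.mem_preimage, Set.mem_preimage, mem_cylinder, mem_cylinder]
      have h4 : s.restrict (sh^[a] w) = s.restrict (sh^[a] w') := by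
        funext i
        change (sh^[a] w) i = (sh^[a] w') i
        rw [sh_iter, sh_iter]
        obtain ⟨h5, h6⟩ := ha i i.2
        obtain ⟨j, hj⟩ : ∃ j : ℕ, (i : ℤ) + a = j := ⟨((i : ℤ) + a).toNat, by omega⟩
        rw [hj]
        exact hw j (by omega)
      rw [h4]
    by_cases h5 : w ∈ B
    · rw [Set.indicator_of_mem h5, Set.indicator_of_mem (h3.1 h5)]
    · rw [Set.indicator_of_notMem h5, Set.indicator_of_notMem (fun h6 => h5 (h3.2 h6))]
  have hbd : ∀ w : ℤ → Bool, |B.indicator (fun _ => (1 : ℝ)) w| ≤ 1 := by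
    intro w
    by_cases h5 : w ∈ B
    · rw [Set.indicator_of_mem h5]
      norm_num
    · rw [Set.indicator_of_notMem h5]
      norm_num
  have key := h1 (2 * a + 1) (B.indicator (fun _ => (1 : ℝ))) hbd hdep
  -- the measures agree
  have hreal : μ.real B = ν.real B := by
    by_contra hne
    have hd : 0 < |μ.real B - ν.real B| := abs_pos.2 (sub_ne_zero.2 hne)
    obtain ⟨δ, hδ⟩ : ∃ δ : ℝ, δ = |μ.real B - ν.real B| := ⟨_, rfl⟩
    rw [← hδ] at hd
    obtain ⟨m, hm⟩ : ∃ m : ℝ, m = 2 * (a : ℝ) + 1 := ⟨_, rfl⟩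
    have hm0 : 0 < m := by rw [hm]; positivity
    obtain ⟨k, hk⟩ := exists_nat_gt (8 * m / δ)
    obtain ⟨q, hq⟩ := exists_nat_gt (4 / δ)
    obtain ⟨Γ, hΓ⟩ := key k
    have f1 := one_side B hBm μ hμ hμs ((q + 1) * L (k + 1)) (q * Γ) _ (fun w hw => hΓ w hw q)
    have f2 := one_side B hBm ν hν hνs ((q + 1) * L (k + 1)) (q * Γ) _ (fun w hw => hΓ w hw q)
    have hL : L (k + 1) = N k * L k := rfl
    have hLk : (k : ℝ) < L k := by
      have h3 : k < 2 ^ k := Nat.lt_two_pow_self
      have h4 := h2.2 k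
      exact_mod_cast lt_of_lt_of_le h3 h4
    have hN0 : (0 : ℝ) < N k := by exact_mod_cast N_pos k
    have hL0 : (0 : ℝ) < L k := by exact_mod_cast L_pos k
    rw [hL] at f1 f2
    push_cast at f1 f2
    rw [← hm] at f1 f2
    have hk2 : 8 * m < δ * L k := by
      rw [div_lt_iff₀ hd] at hk
      nlinarith
    have hq2 : 4 < δ * q := by
      rw [div_lt_iff₀ hd] at hq
      linarith
    have g1 := abs_le.1 f1
    have g2 := abs_le.1 f2
    have g3 : ((q : ℝ) + 1) * (N k * L k) * δ ≤ 2 * (q * (2 * m * N k) + N k * L k) := by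
      rw [hδ, ← abs_of_pos (show (0 : ℝ) < ((q : ℝ) + 1) * (N k * L k) by positivity), ← abs_mul,
        abs_le]
      constructor <;> nlinarith [g1.1, g1.2, g2.1, g2.2]
    have g4 : (N k : ℝ) * (((q : ℝ) + 1) * L k * δ) ≤ N k * (2 * (q * (2 * m) + L k)) := by
      linarith
    have g5 := le_of_mul_le_mul_left g4 hN0
    have hq0 : (0 : ℝ) ≤ q := Nat.cast_nonneg q
    nlinarith [mul_pos hL0 hd]
  have h3 : (μ B).toReal = (ν B).toReal := hreal
  exact (ENNReal.toReal_eq_toReal_iff' (measure_ne_top μ B) (measure_ne_top ν B)).1 h3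

end Pool.Agent.Q54.KI
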