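import Mathlib
import Pool.Agent.Q127.KI.Stm2

/-!
# Shadowing of an orbit which converges to the copy of the subshift (job SHD of project KI2)
-/

set_option autoImplicit false

namespace Pool.Agent.Q54.KI

open MeasureTheory Filter Topology Pool.Agent.Q127.KI

theorem unif {M : Type} [MetricSpace M] [CompactSpace M] (f : M → M) (hf : Continuous f) (δ : ℝ)
    (hδ : 0 < δ) (n0 : ℕ) : ∃ η : ℝ, 0 < η ∧ ∀ y y' : M, dist y y' < η → ∀ i ≤ n0,
      dist (f^[i] y) (f^[i] y') < δ := by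
  induction n0 with
  | zero =>
    refine ⟨δ, hδ, fun y y' h i hi => ?_⟩
    have h0 : i = 0 := by omega
    subst h0
    exact h
  | succ n ih =>
    obtain ⟨η, hη, h1⟩ := ih
    have huc : UniformContinuous (f^[n + 1]) :=
      CompactSpace.uniformContinuous_of_continuous (hf.iterate (n + 1))
    obtain ⟨η', hη', h2⟩ := Metric.uniformContinuous_iff.1 huc δ hδ
    refine ⟨min η η', lt_min hη hη', fun y y' h i hi => ?_⟩
    rcases Nat.lt_or_ge n i with h3 | h3
    · have h4 : i = n + 1 := by omega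
      subst h4
      exact h2 (lt_of_lt_of_le h (min_le_right _ _))
    · exact h1 y y' (lt_of_lt_of_le h (min_le_left _ _)) i h3

theorem shd : S_shd := by
  intro M _ _ f Φ hf hne hsh hconj x hx δ hδ n0
  obtain ⟨η, hη, h1⟩ := unif f hf δ hδ n0
  have hiter : ∀ (i : ℕ) (w : ℤ → Bool), w ∈ Pool.Agent.Q127.KI.Sub →
      sh^[i] w ∈ Pool.Agent.Q127.KI.Sub ∧ f^[i] (Φ w) = Φ (sh^[i] w) := by
    intro i w hw
    induction i with
    | zero => exact ⟨hw, rfl⟩
    | succ i ih =>
      obtain ⟨h2, h3⟩ := ih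
      rw [Function.iterate_succ_apply', Function.iterate_succ_apply']
      exact ⟨hsh _ h2, by rw [h3]; exact hconj _ h2⟩
  have hev : ∀ᶠ n in atTop, Metric.infDist (f^[n] x) (Φ '' Pool.Agent.Q127.KI.Sub) < η :=
    hx.eventually (gt_mem_nhds hη)
  obtain ⟨J, hJ⟩ := eventually_atTop.1 hev
  refine ⟨J, fun j hj => ?_⟩
  obtain ⟨y, ⟨w, hw, rfl⟩, h5⟩ := (Metric.infDist_lt_iff (hne.image Φ)).1 (hJ j hj)
  refine ⟨w, hw, fun i hi => ?_⟩
  have h6 := h1 _ _ h5 i hi
  rw [(hiter i w hw).2] at h6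
  rw [Nat.add_comm j i, Function.iterate_add_apply]
  exact h6

end Pool.Agent.Q54.KI
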